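import Pool.Agent.H79.QF.Targets

/-!
Row BLD of the board qfg_modules.
-/

set_option autoImplicit false

open Finset Matrix Pool.Agent.H1.Mono

namespace Pool.Agent.H34.QF

open Pool.Agent.H79.QF

theorem bld_equiv (G : Type) [Fintype G] (rk : G → ℕ) :
    ∃ e : G ≃ Fin (Fintype.card G), ∀ g h, rk h < rk g → e h < e g := by
  have h1 := Tuple.monotone_sort (rk ∘ (Fintype.equivFin G).symm)
  refine ⟨(Fintype.equivFin G).trans (Tuple.sort (rk ∘ (Fintype.equivFin G).symm)).symm,
    fun g h hgh => ?_⟩
  by_contra hc
  have h2 := h1 (not_lt.mp hc)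
  simp at h2
  omega

theorem pf_BLD : T_BLD := by
  classical
  intro ι G _ _ isAnd ins gates rk hrk val hval
  obtain ⟨e, he⟩ := bld_equiv G rk
  let C : MonCircuit ι (Fintype.card G) :=
    { isAnd := fun t => isAnd (e.symm t)
      ins := fun t => ins (e.symm t)
      gates := fun t => (gates (e.symm t)).map e.toEmbedding
      lt := by
        intro t u hu
        rw [Finset.mem_map] at hu
        obtain ⟨h, hh, rfl⟩ := hu
        have := he _ _ (hrk _ h hh)
        rw [Equiv.apply_symm_apply] at this
        exact this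
      out := e (Classical.arbitrary G) }
  refine ⟨C, e, fun A g => ?_⟩
  have key : ∀ n : ℕ, ∀ g : G, rk g < n → (C.Val A (e g) ↔ val A g) := by
    intro n
    induction n with
    | zero => intro g hg; omega
    | succ n ih =>
      intro g hg
      have h1 : ∀ h ∈ gates g, (C.Val A (e h) ↔ val A h) := fun h hh =>
        ih h (by have := hrk g h hh; omega)
      rw [hval A g]
      have hA : C.isAnd (e g) = isAnd g := by
        change isAnd (e.symm (e g)) = isAnd g
        rw [Equiv.symm_apply_apply]
      have hI : C.ins (e g) = ins g := by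
        change ins (e.symm (e g)) = ins g
        rw [Equiv.symm_apply_apply]
      have hG : C.gates (e g) = (gates g).map e.toEmbedding := by
        change (gates (e.symm (e g))).map e.toEmbedding = _
        rw [Equiv.symm_apply_apply]
      by_cases ha : isAnd g = true
      · rw [if_pos ha, MonCircuit.val_and C A (hA.trans ha), hI, hG]
        refine and_congr Iff.rfl ⟨fun h2 h hh => ?_, fun h2 u hu => ?_⟩
        · exact (h1 h hh).mp (h2 _ (Finset.mem_map_of_mem _ hh))
        · rw [Finset.mem_map] at hu
          obtain ⟨h, hh, rfl⟩ := hu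
          exact (h1 h hh).mpr (h2 h hh)
      · rw [if_neg ha, MonCircuit.val_or C A (fun h2 => ha (hA.symm.trans h2)), hI, hG]
        refine or_congr Iff.rfl ⟨fun h2 => ?_, fun h2 => ?_⟩
        · obtain ⟨u, hu, hv⟩ := h2
          rw [Finset.mem_map] at hu
          obtain ⟨h, hh, rfl⟩ := hu
          exact ⟨h, hh, (h1 h hh).mp hv⟩
        · obtain ⟨h, hh, hv⟩ := h2
          exact ⟨e h, Finset.mem_map_of_mem _ hh, (h1 h hh).mpr hv⟩
  exact key (rk g + 1) g (Nat.lt_succ_self _)

end Pool.Agent.H34.QF
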