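import Pool.Agent.H79.QF.Targets

/-!
Row HYB of the board qfg_modules.
-/

set_option autoImplicit false

open Finset Matrix Pool.Agent.H1.Mono

namespace Pool.Agent.H34.QF

open Pool.Agent.H79.QF

/-- the euclidean norm of a vector -/
noncomputable def nm {ι : Type} [Fintype ι] (x : ι → ℂ) : ℝ := Real.sqrt (∑ i, ‖x i‖ ^ 2)

theorem nm_eq {ι : Type} [Fintype ι] (x : ι → ℂ) :
    nm x = ‖(WithLp.toLp 2 x : EuclideanSpace ℂ ι)‖ := by
  rw [EuclideanSpace.norm_eq]
  rfl

theorem nm_add {ι : Type} [Fintype ι] (x y : ι → ℂ) : nm (fun i => x i + y i) ≤ nm x + nm y := by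
  rw [nm_eq, nm_eq, nm_eq]
  exact norm_add_le (WithLp.toLp 2 x : EuclideanSpace ℂ ι) (WithLp.toLp 2 y)

theorem nm_mulVec {ι : Type} [Fintype ι] [DecidableEq ι] (U : Matrix ι ι ℂ)
    (hU : U ∈ Matrix.unitaryGroup ι ℂ) (x : ι → ℂ) : nm (U *ᵥ x) = nm x := by
  have key : ∀ y : ι → ℂ, ((∑ i, ‖y i‖ ^ 2 : ℝ) : ℂ) = star y ⬝ᵥ y := by
    intro y
    rw [dotProduct]
    push_cast
    refine Finset.sum_congr rfl fun i _ => ?_
    rw [Pi.star_apply, Complex.star_def, Complex.conj_mul']
  unfold nm
  congr 1
  apply Complex.ofReal_injective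
  rw [key, key, Matrix.star_mulVec, Matrix.dotProduct_mulVec, Matrix.vecMul_vecMul]
  have h1 : Uᴴ * U = 1 := by
    have := (Matrix.mem_unitaryGroup_iff').mp hU
    rwa [Matrix.star_eq_conjTranspose] at this
  rw [h1, Matrix.vecMul_one]

theorem phase_norm {s : ℕ} (Q : GQ s) (v : Fin s → Prop) (i : Q.basis) : ‖Q.phase v i‖ = 1 := by
  classical
  unfold GQ.phase
  rw [norm_prod]
  refine Finset.prod_eq_one fun u _ => ?_
  split_ifs <;> simp

theorem pf_HYB : T_HYB := by
  classical
  intro s Q v v' j
  induction j with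
  | zero =>
    rw [Finset.range_zero, Finset.sum_empty, mul_zero]
    unfold GQ.dist
    refine le_of_eq ?_
    rw [Real.sqrt_eq_zero']
    refine le_of_eq (Finset.sum_eq_zero fun i _ => ?_)
    have : Q.state v 0 = Q.state v' 0 := rfl
    rw [this, sub_self, norm_zero]
    norm_num
  | succ j ih =>
    rw [Finset.sum_range_succ, mul_add]
    have h1 : Q.dist v v' (j + 1) =
        nm (fun i => Q.phase v i * Q.state v j i - Q.phase v' i * Q.state v' j i) := by
      rw [← nm_mulVec (Q.U (j + 1)) (Q.unitary (j + 1))]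
      unfold GQ.dist nm
      congr 1
      refine Finset.sum_congr rfl fun i _ => ?_
      congr 2
      have h2 : (fun i => Q.phase v i * Q.state v j i - Q.phase v' i * Q.state v' j i) =
          (fun i => Q.phase v i * Q.state v j i) - (fun i => Q.phase v' i * Q.state v' j i) := rfl
      rw [h2, Matrix.mulVec_sub]
      rfl
    have h3 : (fun i => Q.phase v i * Q.state v j i - Q.phase v' i * Q.state v' j i) =
        fun i => (Q.phase v' i * (Q.state v j i - Q.state v' j i)) +
          ((Q.phase v i - Q.phase v' i) * Q.state v j i) := by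
      funext i
      ring
    rw [h1, h3]
    refine le_trans (nm_add _ _) (add_le_add ?_ ?_)
    · refine le_trans (le_of_eq ?_) ih
      unfold nm GQ.dist
      congr 1
      refine Finset.sum_congr rfl fun i _ => ?_
      rw [norm_mul, phase_norm, one_mul]
    · unfold nm
      rw [show (2 : ℝ) = Real.sqrt (2 ^ 2) by rw [Real.sqrt_sq]; norm_num, ← Real.sqrt_mul (by norm_num)]
      refine Real.sqrt_le_sqrt ?_
      unfold GQ.wt
      rw [Finset.mul_sum]
      refine Finset.sum_le_sum fun i _ => ?_
      by_cases hi : ∃ u ∈ Q.ask i, ¬ (v u ↔ v' u)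
      · rw [if_pos hi, norm_mul, mul_pow]
        refine mul_le_mul_of_nonneg_right ?_ (by positivity)
        refine pow_le_pow_left₀ (norm_nonneg _) ?_ 2
        refine le_trans (norm_sub_le _ _) ?_
        rw [phase_norm, phase_norm]
        norm_num
      · have h4 : Q.phase v i = Q.phase v' i := by
          unfold GQ.phase
          refine Finset.prod_congr rfl fun u hu => ?_
          have h5 : (v u ↔ v' u) := by
            by_contra h6
            exact hi ⟨u, hu, h6⟩
          simp only [h5]
        rw [if_neg hi]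
        change ‖(Q.phase v i - Q.phase v' i) * Q.state v j i‖ ^ 2 ≤ 2 ^ 2 * 0
        rw [h4, sub_self, zero_mul, norm_zero]
        norm_num

end Pool.Agent.H34.QF
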