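import Pool.Agent.H79.QF.Targets

/-!
Row TRE of the board qfg_modules.
-/

set_option autoImplicit false

open Finset Matrix Pool.Agent.H1.Mono

namespace Pool.Agent.H34.QF

open Pool.Agent.H79.QF

theorem tre_aux (s N : ℕ) (th sl : ℕ → Fin s) : ∀ d lo len : ℕ, 1 ≤ len → len ≤ 2 ^ d →
    ∃ t : GT s, t.depth ≤ d + 1 ∧ ∀ (v : Fin s → Prop) (c : ℕ), lo ≤ c → c < lo + len → c ≤ N →
      (∀ k ≤ N, (v (th k) ↔ k ≤ c)) → (t.eval v = true ↔ v (sl c)) := by
  intro d
  induction d with
  | zero =>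
    intro lo len h1 h2
    refine ⟨GT.node (sl lo) (GT.leaf true) (GT.leaf false), ?_, ?_⟩
    · simp [GT.depth]
    · intro v c hc1 hc2 hc3 hv
      have h3 : c = lo := by
        rw [pow_zero] at h2
        omega
      subst h3
      rw [GT.eval]
      by_cases h : v (sl c)
      · rw [if_pos h]
        simp [GT.eval, h]
      · rw [if_neg h]
        simp [GT.eval, h]
  | succ d ih =>
    intro lo len h1 h2
    by_cases hl : len ≤ 2 ^ d
    · obtain ⟨t, ht1, ht2⟩ := ih lo len h1 hl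
      exact ⟨t, le_trans ht1 (by omega), ht2⟩
    · rw [pow_succ] at h2
      obtain ⟨a, ha1, ha2⟩ := ih lo (2 ^ d) Nat.one_le_two_pow le_rfl
      by_cases hm : N < lo + 2 ^ d
      · refine ⟨a, le_trans ha1 (by omega), fun v c hc1 hc2 hc3 hv => ?_⟩
        exact ha2 v c hc1 (by omega) hc3 hv
      · obtain ⟨b, hb1, hb2⟩ := ih (lo + 2 ^ d) (len - 2 ^ d) (by omega) (by omega)
        refine ⟨GT.node (th (lo + 2 ^ d)) b a, ?_, fun v c hc1 hc2 hc3 hv => ?_⟩
        · rw [GT.depth]
          have := max_le hb1 ha1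
          omega
        · rw [GT.eval]
          have h3 := hv (lo + 2 ^ d) (by omega)
          by_cases h4 : lo + 2 ^ d ≤ c
          · rw [if_pos (h3.mpr h4)]
            exact hb2 v c h4 (by omega) hc3 hv
          · rw [if_neg (fun h5 => h4 (h3.mp h5))]
            exact ha2 v c hc1 (by omega) hc3 hv

theorem pf_TRE : T_TRE := by
  intro s N th sl
  obtain ⟨t, h1, h2⟩ := tre_aux s N th sl (Nat.clog 2 (N + 1)) 0 (N + 1) (by omega)
    (Nat.le_pow_clog (by norm_num) _)
  refine ⟨t, h1, fun v c hc hv => h2 v c (Nat.zero_le _) (by omega) hc hv⟩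

end Pool.Agent.H34.QF
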